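import Pool.Agent.H24.AG.Targets

/-!
ABSOLUTE GAP (`MP_c59857_nt`), section 3: primes in dyadic intervals.
-/

set_option autoImplicit false

open Finset Filter Topology

namespace Pool.Agent.H18.AG

open Pool.Agent.H24.AG (T_VDY)

/-- the primes in `(n, 2 n]` -/
theorem card_primes_ge (n : ℕ) (hn : 2 < n) :
    (n : ℝ) * Real.log 4 - Real.log (2 * n) ≤
      (Nat.sqrt (2 * n) + 1 : ℝ) * Real.log (2 * n) + Real.log 4 * (2 * n / 3) +
      (((Finset.Ioc n (2 * n)).filter Nat.Prime).card : ℝ) * Real.log (2 * n) := by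
  have hn0 : (0 : ℝ) < n := by exact_mod_cast (by omega : 0 < n)
  have hn1 : (1 : ℝ) ≤ 2 * n := by
    have : (1 : ℝ) ≤ n := by exact_mod_cast (by omega : 1 ≤ n)
    linarith
  have hlog0 : 0 ≤ Real.log (2 * n) := Real.log_nonneg hn1
  set v : ℕ → ℕ := fun p => (Nat.centralBinom n).factorization p with hv
  have hcb : 0 < Nat.centralBinom n := Nat.centralBinom_pos n
  have h1 : (n : ℝ) * Real.log 4 - Real.log (2 * n) ≤ Real.log (Nat.centralBinom n) := by
    have h2 := Nat.four_pow_le_two_mul_self_mul_centralBinom n (by omega)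
    have h3 : (4 : ℝ) ^ n ≤ 2 * n * Nat.centralBinom n := by exact_mod_cast h2
    have h4 := Real.log_le_log (by positivity) h3
    rw [Real.log_pow, Real.log_mul (by positivity) (by exact_mod_cast hcb.ne')] at h4
    linarith
  have h2 : Real.log (Nat.centralBinom n) =
      ∑ p ∈ range (2 * n + 1), (v p : ℝ) * Real.log p := by
    have h3 := Nat.prod_pow_factorization_centralBinom n
    have h4 : ((∏ p ∈ range (2 * n + 1), p ^ v p : ℕ) : ℝ) = Nat.centralBinom n := by
      rw [hv]
      exact_mod_cast h3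
    rw [← h4]
    push_cast
    rw [Real.log_prod]
    · exact Finset.sum_congr rfl fun p _ => Real.log_pow _ _
    · intro p _
      rcases Nat.eq_zero_or_pos p with h0 | h0
      · have h5 : v p = 0 := by rw [hv, h0]; simp
        rw [h5, pow_zero]
        exact one_ne_zero
      · have : (0 : ℝ) < p := by exact_mod_cast h0
        positivity
  have hpt : ∀ p ∈ range (2 * n + 1), (v p : ℝ) * Real.log p ≤
      (if p ≤ Nat.sqrt (2 * n) then Real.log (2 * n) else 0) +
      (if p.Prime ∧ 3 * p ≤ 2 * n then Real.log p else 0) +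
      (if p.Prime ∧ n < p then Real.log (2 * n) else 0) := by
    intro p hp
    rw [Finset.mem_range] at hp
    have hA : 0 ≤ (if p ≤ Nat.sqrt (2 * n) then Real.log (2 * n) else 0) := by
      split_ifs
      · exact hlog0
      · exact le_rfl
    have hB : 0 ≤ (if p.Prime ∧ 3 * p ≤ 2 * n then Real.log p else 0) := by
      split_ifs
      · exact Real.log_natCast_nonneg p
      · exact le_rfl
    have hC : 0 ≤ (if p.Prime ∧ n < p then Real.log (2 * n) else 0) := by
      split_ifs
      · exact hlog0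
      · exact le_rfl
    by_cases hpp : p.Prime
    swap
    · have h5 : v p = 0 := Nat.factorization_eq_zero_of_not_prime _ hpp
      rw [h5, Nat.cast_zero, zero_mul]
      linarith
    have hp0 : (0 : ℝ) < p := by exact_mod_cast hpp.pos
    have hlp : 0 ≤ Real.log p := Real.log_natCast_nonneg p
    by_cases h6 : p ≤ Nat.sqrt (2 * n)
    · have h7 : p ^ v p ≤ 2 * n := by
        rw [hv]
        exact Nat.pow_factorization_choose_le (by omega)
      have h8 : (v p : ℝ) * Real.log p ≤ Real.log (2 * n) := by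
        rw [← Real.log_pow]
        apply Real.log_le_log (by positivity)
        exact_mod_cast h7
      rw [if_pos h6]
      linarith
    · have h7 : v p ≤ 1 := by
        rw [hv]
        apply Nat.factorization_choose_le_one
        exact Nat.sqrt_lt'.mp (not_le.mp h6)
      have h8 : (v p : ℝ) * Real.log p ≤ Real.log p := by
        have : (v p : ℝ) ≤ 1 := by exact_mod_cast h7
        nlinarith
      rcases le_or_gt (3 * p) (2 * n) with h9 | h9
      · rw [if_pos (⟨hpp, h9⟩ : p.Prime ∧ 3 * p ≤ 2 * n)]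
        linarith
      · rcases le_or_gt p n with h10 | h10
        · have h11 : v p = 0 :=
            Nat.factorization_centralBinom_of_two_mul_self_lt_three_mul hn h10 h9
          rw [h11, Nat.cast_zero, zero_mul]
          linarith
        · have h11 : Real.log p ≤ Real.log (2 * n) := by
            apply Real.log_le_log hp0
            have : p ≤ 2 * n := by omega
            exact_mod_cast this
          have h12 : (if p.Prime ∧ n < p then Real.log (2 * (n : ℝ)) else 0) =
              Real.log (2 * n) := if_pos ⟨hpp, h10⟩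
          rw [h12]
          linarith
  refine h1.trans (h2.le.trans ((Finset.sum_le_sum hpt).trans ?_))
  rw [Finset.sum_add_distrib, Finset.sum_add_distrib]
  refine add_le_add (add_le_add ?_ ?_) ?_
  · rw [← Finset.sum_filter, Finset.sum_const, nsmul_eq_mul]
    apply mul_le_mul_of_nonneg_right _ hlog0
    have hsub : (range (2 * n + 1)).filter (fun p => p ≤ Nat.sqrt (2 * n)) ⊆
        range (Nat.sqrt (2 * n) + 1) := by
      intro p hp
      rw [Finset.mem_filter] at hp
      rw [Finset.mem_range]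
      omega
    have := Finset.card_le_card hsub
    rw [Finset.card_range] at this
    exact_mod_cast this
  · rw [← Finset.sum_filter]
    have hx : (0 : ℝ) ≤ 2 * n / 3 := by positivity
    refine le_trans ?_ (Chebyshev.theta_le_log4_mul_x hx)
    unfold Chebyshev.theta
    apply Finset.sum_le_sum_of_subset_of_nonneg
    · intro p hp
      rw [Finset.mem_filter] at hp ⊢
      refine ⟨Finset.mem_Ioc.mpr ⟨hp.2.1.pos, ?_⟩, hp.2.1⟩
      apply Nat.le_floor
      have h3 : ((3 * p : ℕ) : ℝ) ≤ ((2 * n : ℕ) : ℝ) := by exact_mod_cast hp.2.2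
      push_cast at h3
      linarith
    · intro p _ _
      exact Real.log_natCast_nonneg p
  · rw [← Finset.sum_filter, Finset.sum_const, nsmul_eq_mul]
    apply mul_le_mul_of_nonneg_right _ hlog0
    have hsub : (range (2 * n + 1)).filter (fun p => p.Prime ∧ n < p) ⊆
        (Finset.Ioc n (2 * n)).filter Nat.Prime := by
      intro p hp
      rw [Finset.mem_filter, Finset.mem_range] at hp
      rw [Finset.mem_filter, Finset.mem_Ioc]
      exact ⟨⟨hp.2.2, by omega⟩, hp.2.1⟩
    exact_mod_cast Finset.card_le_card hsub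

theorem ev_small : ∀ᶠ m : ℕ in atTop, 40 * ((m : ℝ) + 1) ≤ √2 ^ m := by
  have hr : (1 : ℝ) < √2 := by
    rw [Real.lt_sqrt (by norm_num)]
    norm_num
  have h := tendsto_pow_const_div_const_pow_of_one_lt 1 hr
  have h2 : ∀ᶠ m : ℕ in atTop, (m : ℝ) ^ 1 / √2 ^ m < 1 / 80 :=
    h.eventually_lt_const (by norm_num)
  filter_upwards [h2, eventually_ge_atTop 1] with m hm hm1
  have h0 : (0 : ℝ) < √2 ^ m := by positivity
  rw [div_lt_iff₀ h0, pow_one] at hm
  have : (1 : ℝ) ≤ m := by exact_mod_cast hm1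
  linarith

theorem pf_VDY : T_VDY := by
  obtain ⟨m₁, hm₁⟩ := eventually_atTop.mp ev_small
  refine ⟨1 / 10, by norm_num, max m₁ 2, fun m hm => ?_⟩
  have hm2 : 2 ≤ m := le_trans (le_max_right _ _) hm
  have hs := hm₁ m (le_trans (le_max_left _ _) hm)
  set s : ℝ := √2 ^ m with hsdef
  have hs2 : s ^ 2 = 2 ^ m := by
    rw [hsdef, ← pow_mul, mul_comm, pow_mul, Real.sq_sqrt (by norm_num)]
  have hm2' : (2 : ℝ) ≤ m := by exact_mod_cast hm2
  have hs1 : 1 ≤ s := by linarith
  have hn : 2 < 2 ^ m := by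
    calc 2 < 2 ^ 2 := by norm_num
      _ ≤ 2 ^ m := Nat.pow_le_pow_right (by norm_num) hm2
  have h := card_primes_ge (2 ^ m) hn
  have he : 2 * 2 ^ m = 2 ^ (m + 1) := by ring
  rw [he] at h
  push_cast at h
  have he' : (2 : ℝ) * 2 ^ m = 2 ^ (m + 1) := by ring
  rw [he'] at h
  have hlog : Real.log ((2 : ℝ) ^ (m + 1)) = ((m : ℝ) + 1) * Real.log 2 := by
    rw [Real.log_pow]
    push_cast
    ring
  have hlog4 : Real.log 4 = 2 * Real.log 2 := by
    rw [show (4 : ℝ) = 2 ^ 2 by norm_num, Real.log_pow]; norm_num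
  rw [hlog, hlog4] at h
  have hl2a := Real.log_two_gt_d9
  have hl2b := Real.log_two_lt_d9
  set N : ℝ := (((Finset.Ioc (2 ^ m) (2 ^ (m + 1))).filter Nat.Prime).card : ℝ) with hN
  have hN0 : 0 ≤ N := Nat.cast_nonneg _
  have hsq : (Nat.sqrt (2 ^ (m + 1)) : ℝ) ≤ 2 * s := by
    have h1 : ((Nat.sqrt (2 ^ (m + 1)) : ℝ)) ^ 2 ≤ 2 ^ (m + 1) := by
      exact_mod_cast Nat.sqrt_le' (2 ^ (m + 1))
    have h2 : (2 : ℝ) ^ (m + 1) ≤ (2 * s) ^ 2 := by
      rw [mul_pow, hs2, pow_succ]
      have : (0 : ℝ) < 2 ^ m := by positivity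
      linarith
    exact le_of_sq_le_sq (h1.trans h2) (by positivity) |>.trans le_rfl
  rw [← hs2] at h
  -- everything in terms of `s`
  have hlm : 0 < ((m : ℝ) + 1) * Real.log 2 := by positivity
  have hlm2 : ((m : ℝ) + 1) * Real.log 2 ≤ s / 40 := by
    have : ((m : ℝ) + 1) * Real.log 2 ≤ (m + 1) * 1 := by
      apply mul_le_mul_of_nonneg_left _ (by positivity)
      linarith
    linarith
  have h3 : ((Nat.sqrt (2 ^ (m + 1)) : ℝ) + 1) * (((m : ℝ) + 1) * Real.log 2) ≤
      3 * s * (s / 40) := by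
    apply mul_le_mul _ hlm2 hlm.le (by positivity)
    linarith
  have h4 : s / 40 ≤ s ^ 2 / 40 := by nlinarith
  have h5 : s ^ 2 * (3 / 10) ≤ N * (((m : ℝ) + 1) * Real.log 2) := by
    have e1 : Real.log 2 * s ^ 2 ≥ 0.69 * s ^ 2 := by
      apply mul_le_mul_of_nonneg_right _ (by positivity)
      linarith
    have h6 : (2 : ℝ) ^ (m + 1) = 2 * s ^ 2 := by rw [hs2]; ring
    rw [h6] at h
    nlinarith
  have hm0 : (0 : ℝ) < m := by linarith
  rw [← hs2, div_le_iff₀ hm0]
  have h7 : ((m : ℝ) + 1) * Real.log 2 ≤ 3 / 2 * m := by nlinarith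
  have h8 : N * (((m : ℝ) + 1) * Real.log 2) ≤ N * (3 / 2 * m) :=
    mul_le_mul_of_nonneg_left h7 hN0
  nlinarith [sq_nonneg s]

end Pool.Agent.H18.AG
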