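import Pool.Agent.H18.AG.VSP

/-!
ABSOLUTE GAP (`MP_c59857_nt`), section 3: the sum of `min (X / d, 1 / (2 ‖θ d‖))` over `d ≤ D`.
-/

set_option autoImplicit false

open Finset

namespace Pool.Agent.H18.AG

open Pool.Agent.H24.AG (mn dn T_VSP T_VS2)

theorem dn_half {θ : ℝ} {q : ℕ} {a : ℤ} (hq : 1 ≤ q)
    (hc : IsCoprime a (q : ℤ)) (hθ : |θ - a / q| ≤ 1 / (q : ℝ) ^ 2) {r : ℕ} (hr : 0 < r)
    (hrq : 2 * r ≤ q) : 1 / (2 * q) ≤ dn (θ * r) := by
  have hq0 : (0 : ℝ) < q := by exact_mod_cast hq
  have hdn : dn (θ * r) = |θ * r - round (θ * r)| := rfl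
  rw [hdn]
  set n : ℤ := round (θ * r)
  have h1 : a * r - n * q ≠ 0 := by
    intro h
    have h2 : (q : ℤ) ∣ a * r := ⟨n, by linarith⟩
    have h3 : (q : ℤ) ∣ (r : ℤ) := hc.symm.dvd_of_dvd_mul_left h2
    have h4 := Int.le_of_dvd (by exact_mod_cast hr) h3
    omega
  have h2 : (1 : ℝ) ≤ |(a : ℝ) * r - n * q| := by
    have := Int.one_le_abs h1
    exact_mod_cast this
  have h3 : 1 / (q : ℝ) ≤ |(a : ℝ) / q * r - n| := by
    have h4 : (a : ℝ) / q * r - n = (a * r - n * q) / q := by field_simp
    rw [h4, abs_div, abs_of_pos hq0]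
    gcongr
  have h5 : |(θ - a / q) * r| ≤ 1 / (2 * q) := by
    have habs : |(r : ℝ)| = r := abs_of_nonneg (Nat.cast_nonneg r)
    rw [abs_mul, habs]
    have hr2 : (r : ℝ) ≤ q / 2 := by
      have : ((2 * r : ℕ) : ℝ) ≤ q := by exact_mod_cast hrq
      push_cast at this
      linarith
    calc |θ - a / q| * (r : ℝ) ≤ 1 / (q : ℝ) ^ 2 * (q / 2) :=
          mul_le_mul hθ hr2 (Nat.cast_nonneg r) (by positivity)
      _ = 1 / (2 * q) := by field_simp
  have h6 : (a : ℝ) / q * r - n = (θ * r - n) - (θ - a / q) * r := by ring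
  have h7 : |(a : ℝ) / q * r - n| ≤ |θ * r - n| + |(θ - a / q) * r| := by
    rw [h6]
    exact abs_sub _ _
  have h8 : 1 / (q : ℝ) = 1 / (2 * q) + 1 / (2 * q) := by field_simp; norm_num
  linarith

theorem pf_VS2 (_h : T_VSP) : T_VS2 := by
  refine ⟨60, by norm_num, fun θ X q a D hq hc hθ hX hDX => ?_⟩
  have hX0 : 0 < X := by linarith
  have hq0 : (0 : ℝ) < q := by exact_mod_cast hq
  have hq1 : (1 : ℝ) ≤ q := by exact_mod_cast hq
  set L : ℝ := Real.log (2 * q * X) with hL
  have hLe : L = Real.log 2 + Real.log q + Real.log X := by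
    rw [hL, Real.log_mul (by positivity) hX0.ne', Real.log_mul two_ne_zero hq0.ne']
  have hl2 := Real.log_two_gt_d9
  have hlq := Real.log_nonneg hq1
  have hlX := Real.log_nonneg hX
  have hL1 : (1 : ℝ) / 2 ≤ L := by rw [hLe]; linarith
  set f : ℕ → ℝ := fun d => mn (X / d) (θ * d) with hf
  have hf0 : ∀ d, 0 ≤ f d := fun d => mn_nonneg (by positivity) _
  -- the first block
  have hb0 : ∑ r ∈ range q, f (0 * q + r) ≤
      (5 * q + 2 * q * (1 + Real.log q)) + (5 * (2 * X / q) + 2 * q * (1 + Real.log q)) := by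
    have h1 : ∀ r ∈ range q, f (0 * q + r) ≤
        mn q (θ * ((0 + r : ℕ) : ℝ)) + mn (2 * X / q) (θ * ((0 + r : ℕ) : ℝ)) := by
      intro r hr
      rw [Finset.mem_range] at hr
      have e1 : 0 * q + r = r := by omega
      have e2 : 0 + r = r := by omega
      rw [e1, e2]
      have hA : 0 ≤ mn (q : ℝ) (θ * r) := mn_nonneg hq0.le _
      have hB : 0 ≤ mn (2 * X / q) (θ * r) := mn_nonneg (by positivity) _
      rcases Nat.eq_zero_or_pos r with h0 | h0
      · have : f r = 0 := by
          rw [hf, h0]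
          simp [mn]
        rw [this]
        linarith
      · have hr0 : (0 : ℝ) < r := by exact_mod_cast h0
        rcases le_or_gt (2 * r) q with h2 | h2
        · have h3 := dn_half hq hc hθ h0 h2
          have h4 : 0 < dn (θ * r) := lt_of_lt_of_le (by positivity) h3
          have h5 : f r ≤ 1 / (2 * dn (θ * r)) := mn_le_inv h4 le_rfl
          have h6 : 1 / (2 * dn (θ * r)) ≤ mn q (θ * r) := by
            unfold mn
            split_ifs with h7
            · rw [div_le_iff₀ (by positivity)]
              rw [div_le_iff₀ (by positivity)] at h3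
              linarith
            · exact le_rfl
          linarith
        · have h3 : f r ≤ mn (2 * X / q) (θ * r) := by
            apply mn_mono (by positivity)
            rw [div_le_div_iff₀ hr0 hq0]
            have h4 : (q : ℝ) ≤ 2 * r := by exact_mod_cast h2.le
            nlinarith
          linarith
    refine (Finset.sum_le_sum h1).trans ?_
    rw [Finset.sum_add_distrib]
    have h2 := (block (M := (q : ℝ)) hq0.le hq hc hθ 0).trans (sum_G_le hq0.le hq)
    have h3 := (block (M := 2 * X / q) (by positivity) hq hc hθ 0).trans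
      (sum_G_le (by positivity) hq)
    exact add_le_add h2 h3
  -- the other blocks
  have hbi : ∀ i : ℕ, ∑ r ∈ range q, f ((i + 1) * q + r) ≤
      5 * (X / q) * (1 / ((i : ℝ) + 1)) + 2 * q * (1 + Real.log q) := by
    intro i
    have hi : (0 : ℝ) < (i : ℝ) + 1 := by positivity
    have h1 : ∀ r ∈ range q, f ((i + 1) * q + r) ≤
        mn (X / q * (1 / ((i : ℝ) + 1))) (θ * (((i + 1) * q + r : ℕ) : ℝ)) := by
      intro r _
      apply mn_mono (by positivity)
      have h2 : X / q * (1 / ((i : ℝ) + 1)) = X / (((i : ℝ) + 1) * q) := by field_simp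
      rw [h2]
      apply div_le_div_of_nonneg_left hX0.le (by positivity)
      push_cast
      have : (0 : ℝ) ≤ r := Nat.cast_nonneg r
      linarith
    refine (Finset.sum_le_sum h1).trans ?_
    have h3 := (block (M := X / q * (1 / ((i : ℝ) + 1))) (by positivity) hq hc hθ
      ((i + 1) * q)).trans (sum_G_le (by positivity) hq)
    linarith
  have hsub : Finset.Ioc 0 D ⊆ range ((D / q + 1) * q) := by
    intro d hd
    rw [Finset.mem_Ioc] at hd
    rw [Finset.mem_range]
    have := Nat.lt_div_mul_add (a := D) (b := q) (by omega)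
    nlinarith
  have hmain : ∑ d ∈ Finset.Ioc 0 D, f d ≤
      5 * (X / q) * (1 + Real.log X) + D * (2 * (1 + Real.log q)) +
      ((5 * q + 2 * q * (1 + Real.log q)) + (5 * (2 * X / q) + 2 * q * (1 + Real.log q))) := by
    calc ∑ d ∈ Finset.Ioc 0 D, f d ≤ ∑ d ∈ range ((D / q + 1) * q), f d :=
          Finset.sum_le_sum_of_subset_of_nonneg hsub fun d _ _ => hf0 _
      _ = ∑ i ∈ range (D / q + 1), ∑ r ∈ range q, f (i * q + r) := sum_blocks f q (D / q + 1)
      _ = ∑ i ∈ range (D / q), ∑ r ∈ range q, f ((i + 1) * q + r) +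
          ∑ r ∈ range q, f (0 * q + r) := Finset.sum_range_succ' _ _
      _ ≤ _ := by
          apply add_le_add _ hb0
          refine (Finset.sum_le_sum fun i _ => hbi i).trans ?_
          rw [Finset.sum_add_distrib, ← Finset.mul_sum, Finset.sum_const, Finset.card_range,
            nsmul_eq_mul]
          apply add_le_add
          · apply mul_le_mul_of_nonneg_left _ (by positivity)
            refine (sum_inv_le (D / q)).trans ?_
            rcases Nat.eq_zero_or_pos (D / q) with h0 | h0
            · rw [h0]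
              simp only [Nat.cast_zero, Real.log_zero]
              linarith
            · have h1 : ((D / q : ℕ) : ℝ) ≤ X := by
                refine le_trans ?_ hDX
                exact_mod_cast Nat.div_le_self D q
              have h2 : Real.log ((D / q : ℕ) : ℝ) ≤ Real.log X :=
                Real.log_le_log (by exact_mod_cast h0) h1
              linarith
          · have h1 : ((D / q : ℕ) : ℝ) * q ≤ D := by exact_mod_cast Nat.div_mul_le_self D q
            calc ((D / q : ℕ) : ℝ) * (2 * q * (1 + Real.log q)) =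
                  (((D / q : ℕ) : ℝ) * q) * (2 * (1 + Real.log q)) := by ring
              _ ≤ D * (2 * (1 + Real.log q)) := by
                  apply mul_le_mul_of_nonneg_right h1
                  linarith
  refine hmain.trans ?_
  have hlogX : 1 + Real.log X ≤ 2 * L := by rw [hLe]; linarith
  have hlogq : 1 + Real.log q ≤ 2 * L := by rw [hLe]; linarith
  have hXq : 0 ≤ X / q := by positivity
  have hD0 : (0 : ℝ) ≤ D := Nat.cast_nonneg D
  have e1 : 5 * (X / q) * (1 + Real.log X) ≤ 5 * (X / q) * (2 * L) :=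
    mul_le_mul_of_nonneg_left hlogX (by positivity)
  have e2 : D * (2 * (1 + Real.log q)) ≤ D * (2 * (2 * L)) :=
    mul_le_mul_of_nonneg_left (by linarith) hD0
  have e3 : 2 * q * (1 + Real.log q) ≤ 2 * q * (2 * L) :=
    mul_le_mul_of_nonneg_left hlogq (by positivity)
  have e4 : 5 * (q : ℝ) ≤ 5 * q * (2 * L) := by
    have : 5 * (q : ℝ) * 1 ≤ 5 * q * (2 * L) :=
      mul_le_mul_of_nonneg_left (by linarith) (by positivity)
    linarith
  have e5 : 5 * (2 * X / q) ≤ 10 * (X / q) * (2 * L) := by
    have : 10 * (X / q) * 1 ≤ 10 * (X / q) * (2 * L) :=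
      mul_le_mul_of_nonneg_left (by linarith) (by positivity)
    have h2 : 5 * (2 * X / q) = 10 * (X / q) * 1 := by ring
    linarith
  have e6 : 30 * (X / q + D + q) * L ≤ 60 * (X / q + D + q) * L ^ 2 := by
    have h1 : 0 ≤ (X / q + D + q) * L := by positivity
    have h2 : 30 * (X / q + D + q) * L = ((X / q + D + q) * L) * 30 := by ring
    have h3 : 60 * (X / q + D + q) * L ^ 2 = ((X / q + D + q) * L) * (60 * L) := by ring
    rw [h2, h3]
    apply mul_le_mul_of_nonneg_left _ h1
    linarith
  have hDL : 0 ≤ (D : ℝ) * L := by positivity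
  have hqL : 0 ≤ (q : ℝ) * L := by positivity
  have hXL : 0 ≤ (X / q) * L := by positivity
  linarith

end Pool.Agent.H18.AG
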