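import Pool.Agent.H24.AG.Targets

/-!
ABSOLUTE GAP (`MP_c59857_nt`), section 3: the sum of `min (M, 1 / (2 ‖θ d‖))` over `d ≤ D`.
-/

set_option autoImplicit false

open Finset

namespace Pool.Agent.H18.AG

open Pool.Agent.H24.AG (mn dn T_VSP)

theorem dn_nonneg (x : ℝ) : 0 ≤ dn x := abs_nonneg _

theorem mn_nonneg {M : ℝ} (hM : 0 ≤ M) (x : ℝ) : 0 ≤ mn M x := by
  unfold mn
  split_ifs
  · exact hM
  · have := dn_nonneg x
    positivity

theorem mn_le {M : ℝ} (_hM : 0 ≤ M) (x : ℝ) : mn M x ≤ M := by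
  unfold mn
  split_ifs with h
  · exact le_rfl
  · push Not at h
    have h0 : 0 < dn x := by
      rcases lt_or_eq_of_le (dn_nonneg x) with h1 | h1
      · exact h1
      · rw [← h1] at h; norm_num at h
    rw [div_le_iff₀ (by positivity)]
    nlinarith

theorem mn_le_inv {M x c : ℝ} (hc : 0 < c) (h : c ≤ dn x) : mn M x ≤ 1 / (2 * c) := by
  have h0 : 0 < dn x := lt_of_lt_of_le hc h
  have h1 : 1 / (2 * dn x) ≤ 1 / (2 * c) := by
    apply one_div_le_one_div_of_le <;> linarith
  unfold mn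
  split_ifs with h2
  · refine le_trans ?_ h1
    rw [le_div_iff₀ (by positivity)]
    linarith
  · exact h1

theorem mn_mono {M M' : ℝ} (hM : 0 ≤ M) (h : M ≤ M') (x : ℝ) : mn M x ≤ mn M' x := by
  by_cases h2 : 2 * M' * dn x ≤ 1
  · have h3 : mn M' x = M' := by unfold mn; rw [if_pos h2]
    rw [h3]
    exact (mn_le hM x).trans h
  · have h3 : mn M' x = 1 / (2 * dn x) := by unfold mn; rw [if_neg h2]
    rw [h3]
    push Not at h2
    have h0 : 0 < dn x := by
      rcases lt_or_eq_of_le (dn_nonneg x) with h1 | h1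
      · exact h1
      · rw [← h1] at h2; norm_num at h2
    exact mn_le_inv h0 le_rfl

/-- the lower bound of the distance -/
theorem dn_lb {q : ℕ} (hq : 1 ≤ q) {x e : ℝ} {k j : ℤ} (hx : x = k + j / q + e)
    (he : |e| ≤ 3 / (2 * q)) (hj3 : 3 ≤ j) (hjq : j + 3 ≤ q) :
    (j : ℝ) / (2 * q) ≤ dn x ∨ ((q : ℝ) - j) / (2 * q) ≤ dn x := by
  have hq0 : (0 : ℝ) < q := by exact_mod_cast hq
  have hj3' : (3 : ℝ) ≤ j := by exact_mod_cast hj3
  have hjq' : (j : ℝ) + 3 ≤ q := by exact_mod_cast hjq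
  obtain ⟨he1, he2⟩ := abs_le.mp he
  have hdn : dn x = |x - round x| := rfl
  rcases le_or_gt (round x) k with h | h
  · left
    have h' : ((round x : ℤ) : ℝ) ≤ k := by exact_mod_cast h
    rw [hdn]
    refine le_trans ?_ (le_abs_self _)
    have h1 : (j : ℝ) / (2 * q) ≤ j / q - 3 / (2 * q) := by
      rw [div_sub_div _ _ hq0.ne' (by positivity), div_le_div_iff₀ (by positivity) (by positivity)]
      have : 0 < (q : ℝ) ^ 2 := by positivity
      nlinarith [mul_le_mul_of_nonneg_right hj3' (le_of_lt this)]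
    rw [hx] at h' ⊢
    linarith
  · right
    have h' : (k : ℝ) + 1 ≤ ((round x : ℤ) : ℝ) := by exact_mod_cast h
    rw [hdn]
    refine le_trans ?_ (neg_le_abs _)
    have h1 : ((q : ℝ) - j) / (2 * q) ≤ 1 - j / q - 3 / (2 * q) := by
      have h2 : (1 : ℝ) - j / q - 3 / (2 * q) = (2 * q - 2 * j - 3) / (2 * q) := by
        field_simp
      rw [h2]
      apply div_le_div_of_nonneg_right _ (by positivity)
      linarith
    rw [hx] at h' ⊢
    linarith

/-- the majorant of a block -/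
noncomputable def G (M : ℝ) (q j : ℕ) : ℝ :=
  (if j ≤ 2 ∨ q ≤ j + 2 then M else 0) + ((q : ℝ) * (1 / (j : ℝ)) + q * (1 / ((q - j : ℕ) : ℝ)))

theorem mn_le_G {M : ℝ} (hM : 0 ≤ M) {q : ℕ} (hq : 1 ≤ q) {x e : ℝ} {k : ℤ} {j : ℕ}
    (hx : x = k + j / q + e) (he : |e| ≤ 3 / (2 * q)) (_hj : j < q) : mn M x ≤ G M q j := by
  have hq0 : (0 : ℝ) < q := by exact_mod_cast hq
  have hA : 0 ≤ (q : ℝ) * (1 / (j : ℝ)) := by positivity
  have hB : 0 ≤ (q : ℝ) * (1 / ((q - j : ℕ) : ℝ)) := by positivity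
  unfold G
  split_ifs with h
  · have := mn_le hM x
    linarith
  · push Not at h
    obtain ⟨h1, h2⟩ := h
    have hj0 : (0 : ℝ) < j := by
      have : 0 < j := by omega
      exact_mod_cast this
    have hqj : (0 : ℝ) < (q : ℝ) - j := by
      have : (j : ℝ) + 2 < q := by exact_mod_cast h2
      linarith
    have hcast : ((q - j : ℕ) : ℝ) = (q : ℝ) - j := by
      rw [Nat.cast_sub (by omega)]
    rw [hcast] at hB ⊢
    have hx' : x = k + ((j : ℤ) : ℝ) / q + e := by rw [hx]; push_cast; ring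
    rcases dn_lb hq hx' he (by omega) (by omega) with h3 | h3
    · push_cast at h3
      have h4 := mn_le_inv (M := M) (by positivity) h3
      have h5 : 1 / (2 * ((j : ℝ) / (2 * q))) = q * (1 / j) := by field_simp
      rw [h5] at h4
      linarith
    · push_cast at h3
      have h4 := mn_le_inv (M := M) (by positivity) h3
      have h5 : 1 / (2 * (((q : ℝ) - j) / (2 * q))) = q * (1 / (q - j)) := by field_simp
      rw [h5] at h4
      linarith

theorem sum_inv_le (q : ℕ) : ∑ j ∈ range q, 1 / ((j : ℝ) + 1) ≤ 1 + Real.log q := by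
  have h := harmonic_le_one_add_log q
  have h1 : ((harmonic q : ℚ) : ℝ) = ∑ j ∈ range q, 1 / ((j : ℝ) + 1) := by
    unfold harmonic
    push_cast
    exact Finset.sum_congr rfl fun j _ => by rw [one_div]
  linarith

theorem sum_G_le {M : ℝ} (hM : 0 ≤ M) {q : ℕ} (hq : 1 ≤ q) :
    ∑ j ∈ range q, G M q j ≤ 5 * M + 2 * q * (1 + Real.log q) := by
  have hq0 : (0 : ℝ) < q := by exact_mod_cast hq
  unfold G
  rw [Finset.sum_add_distrib, Finset.sum_add_distrib]
  have h1 : ∑ j ∈ range q, (if j ≤ 2 ∨ q ≤ j + 2 then M else 0) ≤ 5 * M := by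
    rw [← Finset.sum_filter, Finset.sum_const, nsmul_eq_mul]
    apply mul_le_mul_of_nonneg_right _ hM
    have hc : ((range q).filter (fun j => j ≤ 2 ∨ q ≤ j + 2)).card ≤ 5 := by
      have hsub : (range q).filter (fun j => j ≤ 2 ∨ q ≤ j + 2) ⊆ range 3 ∪ Finset.Ico (q - 2) q := by
        intro j hj
        simp only [Finset.mem_filter, Finset.mem_range, Finset.mem_union, Finset.mem_Ico] at hj ⊢
        omega
      refine (Finset.card_le_card hsub).trans ((Finset.card_union_le _ _).trans ?_)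
      rw [Finset.card_range, Nat.card_Ico]
      omega
    exact_mod_cast hc
  have h2 : ∑ j ∈ range q, (q : ℝ) * (1 / (j : ℝ)) ≤ q * (1 + Real.log q) := by
    rw [← Finset.mul_sum]
    apply mul_le_mul_of_nonneg_left _ hq0.le
    refine le_trans ?_ (sum_inv_le q)
    obtain ⟨p, rfl⟩ : ∃ p, q = p + 1 := ⟨q - 1, by omega⟩
    rw [Finset.sum_range_succ']
    simp only [Nat.cast_zero, div_zero, add_zero]
    rw [Finset.sum_range_succ]
    have : (0 : ℝ) ≤ 1 / ((p : ℝ) + 1) := by positivity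
    push_cast
    linarith
  have h3 : ∑ j ∈ range q, (q : ℝ) * (1 / ((q - j : ℕ) : ℝ)) ≤ q * (1 + Real.log q) := by
    rw [← Finset.mul_sum]
    apply mul_le_mul_of_nonneg_left _ hq0.le
    refine le_trans (le_of_eq ?_) (sum_inv_le q)
    rw [← Finset.sum_range_reflect]
    refine Finset.sum_congr rfl fun j hj => ?_
    rw [Finset.mem_range] at hj
    have h4 : q - (q - 1 - j) = j + 1 := by omega
    rw [h4]
    push_cast
    ring
  linarith

/-- a block of `q` consecutive values -/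
theorem block {M : ℝ} (hM : 0 ≤ M) {θ : ℝ} {q : ℕ} {a : ℤ} (hq : 1 ≤ q)
    (hc : IsCoprime a (q : ℤ)) (hθ : |θ - a / q| ≤ 1 / (q : ℝ) ^ 2) (d₀ : ℕ) :
    ∑ r ∈ range q, mn M (θ * ((d₀ + r : ℕ) : ℝ)) ≤ ∑ j ∈ range q, G M q j := by
  have hq0 : (0 : ℝ) < q := by exact_mod_cast hq
  have hqz : (0 : ℤ) < q := by exact_mod_cast hq
  set t₀ : ℤ := round (q * (θ * d₀)) with ht
  set φ : ℕ → ℕ := fun r => ((t₀ + a * r) % (q : ℤ)).toNat with hφ
  have hφc : ∀ r, ((φ r : ℕ) : ℤ) = (t₀ + a * r) % (q : ℤ) := fun r => by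
    rw [hφ]
    exact Int.toNat_of_nonneg (Int.emod_nonneg _ hqz.ne')
  have hφlt : ∀ r, φ r < q := fun r => by
    have := Int.emod_lt_of_pos (t₀ + a * r) hqz
    rw [← hφc] at this
    exact_mod_cast this
  have hinj : Set.InjOn φ (range q : Set ℕ) := by
    intro r hr r' hr' h
    rw [Finset.mem_coe, Finset.mem_range] at hr hr'
    have h1 : (t₀ + a * r) % (q : ℤ) = (t₀ + a * r') % (q : ℤ) := by
      rw [← hφc, ← hφc, h]
    have h2 : (q : ℤ) ∣ (t₀ + a * r') - (t₀ + a * r) := Int.ModEq.dvd h1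
    have h3 : (q : ℤ) ∣ a * ((r' : ℤ) - r) := by
      have : (t₀ + a * r') - (t₀ + a * r) = a * ((r' : ℤ) - r) := by ring
      rwa [this] at h2
    have h4 : (q : ℤ) ∣ (r' : ℤ) - r := hc.symm.dvd_of_dvd_mul_left h3
    have h5 : (r' : ℤ) - r = 0 := by
      apply Int.eq_zero_of_abs_lt_dvd h4
      rw [abs_lt]
      constructor <;> omega
    omega
  have himg : (range q).image φ ⊆ range q := by
    intro j hj
    rw [Finset.mem_image] at hj
    obtain ⟨r, _, rfl⟩ := hj
    exact Finset.mem_range.mpr (hφlt r)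
  have hG0 : ∀ j, 0 ≤ G M q j := fun j => by
    unfold G
    split_ifs <;> positivity
  calc ∑ r ∈ range q, mn M (θ * ((d₀ + r : ℕ) : ℝ)) ≤ ∑ r ∈ range q, G M q (φ r) := by
        refine Finset.sum_le_sum fun r hr => ?_
        rw [Finset.mem_range] at hr
        have hdec : t₀ + a * r = (q : ℤ) * ((t₀ + a * r) / (q : ℤ)) + (φ r : ℕ) := by
          rw [hφc]
          exact (Int.mul_ediv_add_emod _ _).symm
        have hdecR : (t₀ : ℝ) + a * r = q * (((t₀ + a * r) / (q : ℤ) : ℤ) : ℝ) + (φ r : ℝ) := by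
          exact_mod_cast hdec
        refine mn_le_G (e := θ * ((d₀ + r : ℕ) : ℝ) - (t₀ + a * r) / q)
          (k := (t₀ + a * r) / (q : ℤ)) hM hq ?_ ?_ (hφlt r)
        · rw [hdecR]
          field_simp
          ring
        · have h1 : |q * (θ * d₀) - t₀| ≤ 1 / 2 := abs_sub_round _
          have h2 : θ * ((d₀ + r : ℕ) : ℝ) - (t₀ + a * r) / q =
              (q * (θ * d₀) - t₀) / q + (θ - a / q) * r := by
            push_cast
            field_simp
            ring
          have h3 : |(θ - a / q) * r| ≤ 1 / q := by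
            have habs : |(r : ℝ)| = r := abs_of_nonneg (Nat.cast_nonneg r)
            rw [abs_mul, habs]
            calc |θ - a / q| * (r : ℝ) ≤ 1 / (q : ℝ) ^ 2 * q := by
                  apply mul_le_mul hθ _ (Nat.cast_nonneg r) (by positivity)
                  exact_mod_cast hr.le
              _ = 1 / q := by field_simp
          have h4 : |(q * (θ * d₀) - t₀) / q| ≤ 1 / 2 / q := by
            rw [abs_div, abs_of_pos hq0]
            gcongr
          rw [h2]
          refine (abs_add_le _ _).trans ?_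
          have h5 : (3 : ℝ) / (2 * q) = 1 / 2 / q + 1 / q := by field_simp; norm_num
          rw [h5]
          linarith
    _ = ∑ j ∈ (range q).image φ, G M q j := (Finset.sum_image hinj).symm
    _ ≤ ∑ j ∈ range q, G M q j :=
        Finset.sum_le_sum_of_subset_of_nonneg himg fun j _ _ => hG0 j

theorem sum_blocks (f : ℕ → ℝ) (q m : ℕ) :
    ∑ n ∈ range (m * q), f n = ∑ i ∈ range m, ∑ r ∈ range q, f (i * q + r) := by
  induction m with
  | zero => simp
  | succ m ih => rw [Nat.succ_mul, Finset.sum_range_add, ih, Finset.sum_range_succ]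

theorem pf_VSP : T_VSP := by
  refine ⟨5, by norm_num, fun θ M q a D hq hc hθ hM => ?_⟩
  have hM0 : 0 ≤ M := by linarith
  have hq0 : (0 : ℝ) < q := by exact_mod_cast hq
  have hq1 : (1 : ℝ) ≤ q := by exact_mod_cast hq
  have hlog : 1 + Real.log q ≤ 2 * Real.log (2 * q) := by
    rw [Real.log_mul two_ne_zero hq0.ne']
    have h1 := Real.log_two_gt_d9
    have h2 := Real.log_nonneg hq1
    linarith
  have hblk : ∀ d₀ : ℕ, ∑ r ∈ range q, mn M (θ * ((d₀ + r : ℕ) : ℝ)) ≤
      5 * (M + q * Real.log (2 * q)) := fun d₀ => by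
    refine (block hM0 hq hc hθ d₀).trans ((sum_G_le hM0 hq).trans ?_)
    have h1 : 2 * (q : ℝ) * (1 + Real.log q) ≤ 2 * q * (2 * Real.log (2 * q)) :=
      mul_le_mul_of_nonneg_left hlog (by positivity)
    have h2 : 0 ≤ q * Real.log (2 * q) := by
      apply mul_nonneg hq0.le
      apply Real.log_nonneg
      linarith
    linarith
  have hsub : Finset.Ioc 0 D ⊆ range ((D / q + 1) * q) := by
    intro d hd
    rw [Finset.mem_Ioc] at hd
    rw [Finset.mem_range]
    have := Nat.lt_div_mul_add (a := D) (b := q) (by omega)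
    nlinarith
  calc ∑ d ∈ Finset.Ioc 0 D, mn M (θ * d) ≤ ∑ d ∈ range ((D / q + 1) * q), mn M (θ * d) :=
        Finset.sum_le_sum_of_subset_of_nonneg hsub fun d _ _ => mn_nonneg hM0 _
    _ = ∑ i ∈ range (D / q + 1), ∑ r ∈ range q, mn M (θ * ((i * q + r : ℕ) : ℝ)) :=
        sum_blocks (fun d => mn M (θ * d)) q (D / q + 1)
    _ ≤ ∑ _i ∈ range (D / q + 1), 5 * (M + q * Real.log (2 * q)) :=
        Finset.sum_le_sum fun i _ => hblk (i * q)
    _ = ((D / q : ℕ) + 1 : ℝ) * (5 * (M + q * Real.log (2 * q))) := by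
        rw [Finset.sum_const, Finset.card_range, nsmul_eq_mul]
        push_cast
        ring
    _ ≤ ((D : ℝ) / q + 1) * (5 * (M + q * Real.log (2 * q))) := by
        apply mul_le_mul_of_nonneg_right
        · have := @Nat.cast_div_le ℝ _ _ _ D q
          linarith
        · have h2 : 0 ≤ q * Real.log (2 * q) := by
            apply mul_nonneg hq0.le
            apply Real.log_nonneg
            linarith
          linarith
    _ = 5 * ((D : ℝ) / q + 1) * (M + q * Real.log (2 * q)) := by ring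

end Pool.Agent.H18.AG
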